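import Pool.Agent.Helper64.AS.Defs

/-! # S_space: Fejer sums over separated points -/

set_option autoImplicit false
set_option linter.dupNamespace false

open Finset MeasureTheory

namespace Pool.Agent.Helper70.AS.space

open Pool.Agent.Helper64.AS

/-- the majorant in the bins -/
noncomputable def g (j : ℕ) : ℝ := if j = 0 then 1 else 1 / (4 * (j : ℝ) ^ 2)

theorem g_nonneg (j : ℕ) : 0 ≤ g j := by
  unfold g
  split_ifs <;> positivity

theorem sum_g (M : ℕ) (hM : 1 ≤ M) : ∑ j ∈ range M, g j ≤ 3 / 2 - 1 / (2 * M) := by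
  induction M, hM using Nat.le_induction with
  | base => simp [g]; norm_num
  | succ n hn ih =>
    rw [Finset.sum_range_succ]
    have hnR : (1 : ℝ) ≤ n := by exact_mod_cast hn
    have h1 : g n = 1 / (4 * (n : ℝ) ^ 2) := by
      unfold g
      rw [if_neg (by omega)]
    rw [h1]
    have h2 : 1 / (4 * (n : ℝ) ^ 2) ≤ 1 / (2 * n) - 1 / (2 * ((n + 1 : ℕ) : ℝ)) := by
      push_cast
      have h3 : 1 / (2 * (n : ℝ)) - 1 / (2 * ((n : ℝ) + 1)) = 1 / (2 * n * (n + 1)) := by
        field_simp
        ring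
      rw [h3]
      apply one_div_le_one_div_of_le (by positivity)
      nlinarith
    linarith

theorem fej_bin (hfej : S_fej) (M j : ℕ) (hM : 1 ≤ M) (hj : j < M) (y : ℝ)
    (h1 : (j : ℝ) / M ≤ y) (h2 : y < (j + 1) / M) : fej M y ≤ M * (g j + g (M - 1 - j)) := by
  obtain ⟨-, -, -, -, hnn, hle, -, -, hbd, -⟩ := hfej
  have hMR : (1 : ℝ) ≤ M := by exact_mod_cast hM
  have hM0 : (0 : ℝ) < M := by linarith
  by_cases hj0 : j = 0
  · subst hj0
    have h3 : g 0 = 1 := by simp [g]
    have h4 := g_nonneg (M - 1 - 0)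
    have h5 := hle M y
    rw [h3]
    nlinarith
  by_cases hj1 : M - 1 - j = 0
  · have h3 : g (M - 1 - j) = 1 := by rw [hj1]; simp [g]
    have h4 := g_nonneg j
    have h5 := hle M y
    rw [h3]
    nlinarith
  have hjR : (1 : ℝ) ≤ j := by exact_mod_cast (by omega : 1 ≤ j)
  have hj2 : (1 : ℝ) ≤ ((M - 1 - j : ℕ) : ℝ) := by exact_mod_cast (by omega : 1 ≤ M - 1 - j)
  have hcast : ((M - 1 - j : ℕ) : ℝ) = M - 1 - j := by
    rw [Nat.cast_sub (by omega), Nat.cast_sub (by omega)]
    simp
  have hy0 : 0 < y := lt_of_lt_of_le (by positivity) h1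
  have hy1 : ((M - 1 - j : ℕ) : ℝ) / M ≤ 1 - y := by
    rw [hcast, div_le_iff₀ hM0]
    rw [lt_div_iff₀ hM0] at h2
    nlinarith
  have hy2 : y < 1 := by
    have : 0 < ((M - 1 - j : ℕ) : ℝ) / M := by positivity
    linarith
  refine (hbd M y hM hy0 hy2).trans ?_
  have hgj : g j = 1 / (4 * (j : ℝ) ^ 2) := by
    unfold g
    rw [if_neg hj0]
  have hgj' : g (M - 1 - j) = 1 / (4 * ((M - 1 - j : ℕ) : ℝ) ^ 2) := by
    unfold g
    rw [if_neg hj1]
  have hkey : ∀ (c w : ℝ), 1 ≤ c → c / M ≤ w → 1 / (4 * M * w ^ 2) ≤ M * (1 / (4 * c ^ 2)) := by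
    intro c w hc hcw
    have hw : 0 < w := lt_of_lt_of_le (by positivity) hcw
    have h6 : c ≤ w * M := by rwa [div_le_iff₀ hM0] at hcw
    rw [mul_one_div, div_le_div_iff₀ (by positivity) (by positivity)]
    have h7 : c ^ 2 ≤ (w * M) ^ 2 := by gcongr
    calc 1 * (4 * c ^ 2) = 4 * c ^ 2 := one_mul _
      _ ≤ 4 * (w * M) ^ 2 := by linarith
      _ = M * (4 * M * w ^ 2) := by ring
  rcases min_choice y (1 - y) with h | h
  · rw [h]
    have h8 := hkey j y hjR h1
    have h9 := mul_nonneg hM0.le (g_nonneg (M - 1 - j))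
    rw [← hgj] at h8
    linarith [mul_add (M : ℝ) (g j) (g (M - 1 - j))]
  · rw [h]
    have h8 := hkey _ (1 - y) hj2 hy1
    have h9 := mul_nonneg hM0.le (g_nonneg j)
    rw [← hgj'] at h8
    linarith [mul_add (M : ℝ) (g j) (g (M - 1 - j))]

theorem space (hfej : S_fej) : S_space := by
  classical
  intro ι P x δ M hδ hM hsep
  have hfej' := hfej
  obtain ⟨-, -, -, -, hnn, hle, hper, -, hbd, -⟩ := hfej'
  have hMR : (1 : ℝ) ≤ M := by exact_mod_cast hM
  have hM0 : (0 : ℝ) < M := by linarith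
  set y : ι → ℝ := fun p => Int.fract (x p) with hy
  have hy0 : ∀ p, 0 ≤ y p := fun p => Int.fract_nonneg _
  have hy1 : ∀ p, y p < 1 := fun p => Int.fract_lt_one _
  have hfy : ∀ p, fej M (x p) = fej M (y p) := by
    intro p
    have h1 : x p = y p + (⌊x p⌋ : ℤ) := by
      simp only [hy]
      exact (Int.fract_add_floor _).symm
    conv_lhs => rw [h1]
    exact hper M (y p) _
  have hsep' : ∀ p ∈ P, ∀ q ∈ P, p ≠ q → δ ≤ |y p - y q| := by
    intro p hp q hq hpq
    have h1 := hsep p hp q hq hpq (⌊x p⌋ - ⌊x q⌋)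
    have h2 : x p - x q - ((⌊x p⌋ - ⌊x q⌋ : ℤ) : ℝ) = y p - y q := by
      simp only [hy, Int.fract]
      push_cast
      ring
    rwa [h2] at h1
  -- the bins
  set bin : ι → ℕ := fun p => ⌊M * y p⌋₊ with hbin
  have hbinlt : ∀ p ∈ P, bin p ∈ range M := by
    intro p _
    rw [Finset.mem_range]
    simp only [hbin]
    rw [Nat.floor_lt (by have := hy0 p; positivity)]
    have := hy1 p
    nlinarith
  have hb1 : ∀ p, (bin p : ℝ) / M ≤ y p := by
    intro p
    rw [div_le_iff₀ hM0, mul_comm]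
    exact Nat.floor_le (by have := hy0 p; positivity)
  have hb2 : ∀ p, y p < (bin p + 1) / M := by
    intro p
    rw [lt_div_iff₀ hM0, mul_comm]
    exact Nat.lt_floor_add_one _
  have hcard : ∀ j ∈ range M, ((P.filter fun p => bin p = j).card : ℝ) ≤ 1 / (M * δ) + 1 := by
    intro j _
    have h1 : (P.filter fun p => bin p = j).card ≤ (range (⌊1 / (M * δ)⌋₊ + 1)).card := by
      apply Finset.card_le_card_of_injOn (fun p => ⌊(y p - j / M) / δ⌋₊)
      · intro p hp
        rw [Finset.mem_coe, Finset.mem_filter] at hp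
        rw [Finset.mem_coe, Finset.mem_range, Nat.lt_add_one_iff]
        apply Nat.floor_le_floor
        have h2 := hb2 p
        rw [hp.2] at h2
        rw [div_le_iff₀ hδ]
        have h3 : 1 / (M * δ) * δ = 1 / M := by field_simp
        rw [h3]
        have h4 : ((j : ℝ) + 1) / M = j / M + 1 / M := by ring
        linarith
      · intro p hp q hq hpq
        rw [Finset.mem_coe, Finset.mem_filter] at hp hq
        by_contra hne
        have h2 := hsep' p hp.1 q hq.1 hne
        have hp0 : 0 ≤ (y p - j / M) / δ := by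
          have h3 := hb1 p
          rw [hp.2] at h3
          apply div_nonneg _ hδ.le
          linarith
        have hq0 : 0 ≤ (y q - j / M) / δ := by
          have h3 := hb1 q
          rw [hq.2] at h3
          apply div_nonneg _ hδ.le
          linarith
        have h4 : |(y p - j / M) / δ - (y q - j / M) / δ| < 1 := by
          have e1 := Nat.floor_le hp0
          have e2 := Nat.lt_floor_add_one ((y p - j / M) / δ)
          have e3 := Nat.floor_le hq0
          have e4 := Nat.lt_floor_add_one ((y q - j / M) / δ)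
          simp only at hpq
          rw [hpq] at e1 e2
          rw [abs_lt]
          constructor <;> linarith
        have h5 : (y p - j / M) / δ - (y q - j / M) / δ = (y p - y q) / δ := by ring
        rw [h5, abs_div, abs_of_pos hδ, div_lt_one hδ] at h4
        linarith
    rw [Finset.card_range] at h1
    have h2 : ((P.filter fun p => bin p = j).card : ℝ) ≤ (⌊1 / (M * δ)⌋₊ : ℝ) + 1 := by
      exact_mod_cast h1
    have h3 : (⌊1 / (M * δ)⌋₊ : ℝ) ≤ 1 / (M * δ) := Nat.floor_le (by positivity)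
    linarith
  calc ∑ p ∈ P, fej M (x p) = ∑ p ∈ P, fej M (y p) := Finset.sum_congr rfl fun p _ => hfy p
    _ ≤ ∑ p ∈ P, (M : ℝ) * (g (bin p) + g (M - 1 - bin p)) := by
        refine Finset.sum_le_sum fun p hp => ?_
        exact fej_bin hfej M (bin p) hM (Finset.mem_range.mp (hbinlt p hp)) (y p) (hb1 p) (hb2 p)
    _ = ∑ j ∈ range M, ∑ p ∈ P.filter (fun p => bin p = j),
          (M : ℝ) * (g (bin p) + g (M - 1 - bin p)) :=
        (Finset.sum_fiberwise_of_maps_to hbinlt _).symm
    _ = ∑ j ∈ range M, ((P.filter fun p => bin p = j).card : ℝ) *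
          ((M : ℝ) * (g j + g (M - 1 - j))) := by
        refine Finset.sum_congr rfl fun j _ => ?_
        rw [← nsmul_eq_mul, ← Finset.sum_const]
        refine Finset.sum_congr rfl fun p hp => ?_
        rw [(Finset.mem_filter.mp hp).2]
    _ ≤ ∑ j ∈ range M, (1 / (M * δ) + 1) * ((M : ℝ) * (g j + g (M - 1 - j))) := by
        refine Finset.sum_le_sum fun j hj => ?_
        apply mul_le_mul_of_nonneg_right (hcard j hj)
        have := g_nonneg j
        have := g_nonneg (M - 1 - j)
        positivity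
    _ = (1 / (M * δ) + 1) * (M * (∑ j ∈ range M, g j + ∑ j ∈ range M, g (M - 1 - j))) := by
        rw [← Finset.sum_add_distrib, Finset.mul_sum, Finset.mul_sum]
    _ = (1 / (M * δ) + 1) * (M * (∑ j ∈ range M, g j + ∑ j ∈ range M, g j)) := by
        rw [Finset.sum_range_reflect g M]
    _ ≤ (1 / (M * δ) + 1) * (M * 3) := by
        have h1 := sum_g M hM
        have h2 : (0 : ℝ) ≤ 1 / (2 * M) := by positivity
        gcongr
        linarith
    _ = 3 * (M + 1 / δ) := by
        field_simp
        ring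
    _ ≤ 10 * (M + 1 / δ) := by
        have : 0 ≤ (M : ℝ) + 1 / δ := by positivity
        linarith

end Pool.Agent.Helper70.AS.space
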