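import Pool.Agent.Helper64.AS.Defs

/-! # S_T: reduced fractions with denominators `u v` -/

set_option autoImplicit false
set_option linter.dupNamespace false

open Finset MeasureTheory

namespace Pool.Agent.Helper70.AS.T

open Pool.Agent.Helper64.AS

theorem sep (u v v' a a' : ℕ) (k : ℤ) (hu : 1 ≤ u) (hv : 1 ≤ v) (hv' : 1 ≤ v') (ha : a < u * v)
    (ha' : a' < u * v') (hc : Nat.Coprime (u * v) a) (hc' : Nat.Coprime (u * v') a')
    (h : (a : ℤ) * v' - a' * v - k * u * v * v' = 0) : v = v' ∧ a = a' := by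
  have huz : (u : ℤ) ≠ 0 := by exact_mod_cast (by omega : u ≠ 0)
  have h1 : (a : ℤ) * (u * v' : ℕ) = (a' + k * (u * v' : ℕ)) * (u * v : ℕ) := by
    push_cast
    have h2 : (a : ℤ) * v' = a' * v + k * u * v * v' := by linarith
    calc (a : ℤ) * (u * v') = u * (a * v') := by ring
      _ = u * (a' * v + k * u * v * v') := by rw [h2]
      _ = _ := by ring
  have hd1 : ((u * v : ℕ) : ℤ) ∣ ((u * v' : ℕ) : ℤ) := by
    have h3 : ((u * v : ℕ) : ℤ) ∣ (a : ℤ) * (u * v' : ℕ) := ⟨((a' : ℤ) + k * (u * v' : ℕ)), by rw [h1]; ring⟩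
    have h4 : IsCoprime ((u * v : ℕ) : ℤ) (a : ℤ) := Nat.isCoprime_iff_coprime.mpr hc
    exact h4.dvd_of_dvd_mul_left h3
  have hd2 : ((u * v' : ℕ) : ℤ) ∣ ((u * v : ℕ) : ℤ) := by
    have h3 : ((u * v' : ℕ) : ℤ) ∣ (a' + k * (u * v' : ℕ)) * (u * v : ℕ) :=
      ⟨(a : ℤ), by rw [← h1]; ring⟩
    have h4 : IsCoprime ((u * v' : ℕ) : ℤ) (a' + k * (u * v' : ℕ)) := by
      have h5 : IsCoprime ((u * v' : ℕ) : ℤ) (a' : ℤ) := Nat.isCoprime_iff_coprime.mpr hc'
      exact h5.add_mul_right_right k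
    exact h4.dvd_of_dvd_mul_left h3
  have hd1' : (u * v) ∣ (u * v') := by exact_mod_cast hd1
  have hd2' : (u * v') ∣ (u * v) := by exact_mod_cast hd2
  have heq : u * v = u * v' := Nat.dvd_antisymm hd1' hd2'
  have hvv : v = v' := Nat.eq_of_mul_eq_mul_left (by omega) heq
  refine ⟨hvv, ?_⟩
  subst hvv
  have hvz : (v : ℤ) ≠ 0 := by exact_mod_cast (by omega : v ≠ 0)
  have h5 : (v : ℤ) * (a - a' - k * (u * v)) = 0 := by linarith [h]
  have h6 : (a : ℤ) - a' - k * (u * v) = 0 := by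
    rcases mul_eq_zero.mp h5 with h7 | h7
    · exact absurd h7 hvz
    · exact h7
  have huv : (0 : ℤ) < u * v := by
    have : 0 < u * v := Nat.mul_pos (by omega) (by omega)
    exact_mod_cast this
  have h8 : (a : ℤ) < u * v := by exact_mod_cast ha
  have h9 : (a' : ℤ) < u * v := by exact_mod_cast ha'
  have h10 : (0 : ℤ) ≤ a := Int.natCast_nonneg _
  have h11 : (0 : ℤ) ≤ a' := Int.natCast_nonneg _
  have hk : k = 0 := by
    by_contra hk
    rcases lt_or_gt_of_ne hk with h12 | h12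
    · have : k * (u * v) ≤ -(u * v : ℤ) := by nlinarith
      linarith
    · have : (u * v : ℤ) ≤ k * (u * v) := by nlinarith
      linarith
  subst hk
  have : (a : ℤ) = a' := by linarith
  exact_mod_cast this

theorem T (hsp : S_space) (hfej : S_fej) : S_T := by
  intro M u Y V t hM hu hV
  obtain ⟨-, -, -, -, hnn, -⟩ := hfej
  rcases V.eq_empty_or_nonempty with hemp | ⟨v₀, hv₀⟩
  · subst hemp
    simp only [Finset.sum_empty]
    positivity
  have hY : 1 ≤ Y := (hV v₀ hv₀).1.trans (hV v₀ hv₀).2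
  have huR : (1 : ℝ) ≤ u := by exact_mod_cast hu
  have hYR : (1 : ℝ) ≤ Y := by exact_mod_cast hY
  let P : Finset (Σ _ : ℕ, ℕ) := V.sigma fun v => (range (u * v)).filter (Nat.Coprime (u * v))
  have hsum : ∑ v ∈ V, TT M (u * v) t =
      ∑ p ∈ P, fej M ((p.2 : ℝ) / ((u * p.1 : ℕ) : ℝ) - t) := by
    unfold TT
    rw [Finset.sum_sigma']
  rw [hsum]
  have h := hsp (Σ _ : ℕ, ℕ) P (fun p => (p.2 : ℝ) / ((u * p.1 : ℕ) : ℝ) - t)
    (1 / (u * (Y : ℝ) ^ 2)) M (by positivity) hM (by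
      intro p hp q hq hpq k
      simp only [P, Finset.mem_sigma, Finset.mem_filter, Finset.mem_range] at hp hq
      obtain ⟨hp1, hp2, hp3⟩ := hp
      obtain ⟨hq1, hq2, hq3⟩ := hq
      have hvp := hV _ hp1
      have hvq := hV _ hq1
      have hvp1 : (1 : ℝ) ≤ p.1 := by exact_mod_cast hvp.1
      have hvq1 : (1 : ℝ) ≤ q.1 := by exact_mod_cast hvq.1
      have hvp2 : (p.1 : ℝ) ≤ Y := by exact_mod_cast hvp.2
      have hvq2 : (q.1 : ℝ) ≤ Y := by exact_mod_cast hvq.2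
      set n : ℤ := (p.2 : ℤ) * q.1 - q.2 * p.1 - k * u * p.1 * q.1 with hn
      have hn0 : n ≠ 0 := by
        intro h0
        have h1 := sep u p.1 q.1 p.2 q.2 k hu hvp.1 hvq.1 hp2 hq2 hp3 hq3 h0
        apply hpq
        rcases p with ⟨p1, p2⟩
        rcases q with ⟨q1, q2⟩
        simp only at h1
        obtain ⟨h2, h3⟩ := h1
        subst h2
        subst h3
        rfl
      have hn1 : (1 : ℝ) ≤ |(n : ℝ)| := by
        have : (1 : ℤ) ≤ |n| := Int.one_le_abs hn0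
        exact_mod_cast this
      have heq : (p.2 : ℝ) / ((u * p.1 : ℕ) : ℝ) - t - ((q.2 : ℝ) / ((u * q.1 : ℕ) : ℝ) - t) - k =
          (n : ℝ) / (u * p.1 * q.1) := by
        rw [hn]
        push_cast
        field_simp
        ring
      rw [heq, abs_div, abs_of_pos (by positivity : (0 : ℝ) < u * p.1 * q.1)]
      rw [div_le_div_iff₀ (by positivity) (by positivity)]
      calc 1 * ((u : ℝ) * p.1 * q.1) = (u : ℝ) * p.1 * q.1 := one_mul _
        _ ≤ (u : ℝ) * Y * Y := by gcongr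
        _ = 1 * (u * (Y : ℝ) ^ 2) := by ring
        _ ≤ |(n : ℝ)| * (u * (Y : ℝ) ^ 2) := by gcongr)
  refine h.trans (le_of_eq ?_)
  rw [one_div_one_div]

end Pool.Agent.Helper70.AS.T
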