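import Pool.Agent.Helper64.AS.Defs

/-! # S_gauss and S_weyl -/

set_option autoImplicit false
set_option linter.dupNamespace false

open Finset MeasureTheory

namespace Pool.Agent.Helper70.AS.gauss

open Pool.Agent.Helper64.AS

theorem ee_div (d : ℕ) [NeZero d] (n : ℤ) : ee ((n : ℝ) / d) = ZMod.stdAddChar (n : ZMod d) := by
  rw [ZMod.stdAddChar_coe, ee]
  congr 1
  push_cast
  ring

theorem sum_zmod (d : ℕ) [NeZero d] (f : ZMod d → ℂ) :
    ∑ m ∈ range d, f (m : ZMod d) = ∑ x : ZMod d, f x := by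
  symm
  apply Finset.sum_nbij' (fun x : ZMod d => x.val) (fun m : ℕ => (m : ZMod d))
  · intro x _
    simp [ZMod.val_lt]
  · intro m _
    simp
  · intro x _
    simp
  · intro m hm
    rw [ZMod.val_natCast, Nat.mod_eq_of_lt (Finset.mem_range.mp hm)]
  · intro x _
    simp

theorem gauss : S_gauss := by
  classical
  intro d a b hd hab
  have hd0 : 0 < d := hd.pos
  have : NeZero d := ⟨hd0.ne'⟩
  set ψ : AddChar (ZMod d) ℂ := ZMod.stdAddChar with hψ
  have hprim : ψ.IsPrimitive := ZMod.isPrimitive_stdAddChar d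
  set q : ZMod d → ZMod d := fun x => (a : ZMod d) * x ^ 2 + b * x with hq
  have hS : ∑ m ∈ range d, ee (((a : ℝ) * m ^ 2 + b * m) / d) = ∑ x : ZMod d, ψ (q x) := by
    rw [← sum_zmod d (fun x => ψ (q x))]
    refine Finset.sum_congr rfl fun m _ => ?_
    have h1 : ((a : ℝ) * m ^ 2 + b * m) / d = ((a * m ^ 2 + b * m : ℤ) : ℝ) / d := by
      push_cast; ring
    rw [h1, ee_div]
    congr 1
    simp only [hq]
    push_cast
    ring
  rw [hS]
  -- 2a is a unit
  have h2a : IsUnit ((2 * a : ℤ) : ZMod d) := by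
    rw [ZMod.coe_int_isUnit_iff_isCoprime]
    apply IsCoprime.mul_right _ hab.symm
    have h2 : Nat.Coprime d 2 := hd.coprime_two_right
    exact_mod_cast Nat.isCoprime_iff_coprime.mpr h2
  have hsq : (((‖∑ x : ZMod d, ψ (q x)‖ ^ 2 : ℝ)) : ℂ) = d := by
    rw [Complex.ofReal_pow, ← Complex.mul_conj', map_sum, Finset.sum_mul_sum, Finset.sum_comm]
    calc ∑ y : ZMod d, ∑ x : ZMod d, ψ (q x) * (starRingEnd ℂ) (ψ (q y))
        = ∑ y : ZMod d, ∑ h : ZMod d, ψ (q (h + y)) * (starRingEnd ℂ) (ψ (q y)) := by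
          refine Finset.sum_congr rfl fun y _ => ?_
          exact (Equiv.sum_comp (Equiv.addRight y)
            (fun x => ψ (q x) * (starRingEnd ℂ) (ψ (q y)))).symm
      _ = ∑ h : ZMod d, ∑ y : ZMod d, ψ (q h) * ψ (y * (((2 * a : ℤ) : ZMod d) * h)) := by
          rw [Finset.sum_comm]
          refine Finset.sum_congr rfl fun h _ => Finset.sum_congr rfl fun y _ => ?_
          rw [← AddChar.map_neg_eq_conj, ← AddChar.map_add_eq_mul, ← AddChar.map_add_eq_mul]
          congr 1
          simp only [hq]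
          push_cast
          ring
      _ = ∑ h : ZMod d, ψ (q h) * (if h = 0 then (d : ℂ) else 0) := by
          refine Finset.sum_congr rfl fun h _ => ?_
          rw [← Finset.mul_sum, AddChar.sum_mulShift _ hprim, ZMod.card]
          congr 1
          by_cases hh : h = 0
          · simp [hh]
          · rw [if_neg hh, if_neg]
            · simp
            · rwa [h2a.mul_right_eq_zero]
      _ = d := by
          simp [hq]
  have h2 := congrArg Complex.re hsq
  rw [Complex.ofReal_re, Complex.natCast_re] at h2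
  exact h2

/-- the Fourier expansion of `m ↦ ee (- m² a / d)` -/
theorem expand (hg : S_gauss) (d : ℕ) (a : ℤ) (hd : Odd d) (hab : IsCoprime a (d : ℤ)) :
    ∃ c : ℕ → ℂ, (∀ b ∈ range d, ‖c b‖ = 1 / Real.sqrt d) ∧
      ∀ m : ℤ, ee (-((m : ℝ) ^ 2 * (a / d))) = ∑ b ∈ range d, c b * ee ((m : ℝ) * (b / d)) := by
  classical
  have hd0 : 0 < d := hd.pos
  have : NeZero d := ⟨hd0.ne'⟩
  have hdR : (0 : ℝ) < d := by exact_mod_cast hd0
  set ψ : AddChar (ZMod d) ℂ := ZMod.stdAddChar with hψ
  have hprim : ψ.IsPrimitive := ZMod.isPrimitive_stdAddChar d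
  refine ⟨fun b => (d : ℂ)⁻¹ * ∑ m ∈ range d, ee (((-a : ℤ) : ℝ) * m ^ 2 / d + ((-b : ℤ) : ℝ) * m / d),
    ?_, ?_⟩
  · intro b _
    have h1 := hg d (-a) (-b) hd hab.neg_left
    have h2 : ∑ m ∈ range d, ee (((-a : ℤ) : ℝ) * m ^ 2 / d + ((-b : ℤ) : ℝ) * m / d) =
        ∑ m ∈ range d, ee ((((-a : ℤ) : ℝ) * m ^ 2 + ((-b : ℤ) : ℝ) * m) / d) := by
      refine Finset.sum_congr rfl fun m _ => ?_
      rw [add_div]
    rw [← h2] at h1
    rw [norm_mul, norm_inv, Complex.norm_natCast]
    have h3 : ‖∑ m ∈ range d, ee (((-a : ℤ) : ℝ) * m ^ 2 / d + ((-b : ℤ) : ℝ) * m / d)‖ =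
        Real.sqrt d := by
      have h3' := congrArg Real.sqrt h1
      rwa [Real.sqrt_sq (norm_nonneg _)] at h3'
    rw [h3]
    have h4 : Real.sqrt d * Real.sqrt d = d := Real.mul_self_sqrt hdR.le
    have h5 : 0 < Real.sqrt d := Real.sqrt_pos.mpr hdR
    rw [inv_mul_eq_div, div_eq_div_iff hdR.ne' h5.ne', one_mul, h4]
  · intro m
    -- pass to ZMod d
    have h1 : ∀ n b : ℕ, ee (((-a : ℤ) : ℝ) * n ^ 2 / d + ((-b : ℤ) : ℝ) * n / d) =
        ψ (-(a : ZMod d) * (n : ZMod d) ^ 2 - b * n) := by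
      intro n b
      have h2 : ((-a : ℤ) : ℝ) * n ^ 2 / d + ((-b : ℤ) : ℝ) * n / d =
          ((-a * n ^ 2 - b * n : ℤ) : ℝ) / d := by
        push_cast; ring
      rw [h2, ee_div]
      congr 1
      push_cast
      ring
    have h2 : ∀ b : ℕ, ee ((m : ℝ) * (b / d)) = ψ ((m : ZMod d) * b) := by
      intro b
      have h3 : (m : ℝ) * (b / d) = ((m * b : ℤ) : ℝ) / d := by
        push_cast; ring
      rw [h3, ee_div]
      congr 1
      push_cast
      ring
    have h3 : ee (-((m : ℝ) ^ 2 * (a / d))) = ψ (-(a : ZMod d) * (m : ZMod d) ^ 2) := by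
      have h4 : -((m : ℝ) ^ 2 * (a / d)) = ((-a * m ^ 2 : ℤ) : ℝ) / d := by
        push_cast; ring
      rw [h4, ee_div]
      congr 1
      push_cast
      ring
    rw [h3]
    have h4 : ∑ b ∈ range d, (d : ℂ)⁻¹ * (∑ n ∈ range d,
        ee (((-a : ℤ) : ℝ) * n ^ 2 / d + ((-b : ℤ) : ℝ) * n / d)) * ee ((m : ℝ) * (b / d)) =
        ∑ b : ZMod d, (d : ℂ)⁻¹ * (∑ n : ZMod d, ψ (-(a : ZMod d) * n ^ 2 - b * n)) *
          ψ ((m : ZMod d) * b) := by
      rw [← sum_zmod d (fun b => (d : ℂ)⁻¹ * (∑ n : ZMod d, ψ (-(a : ZMod d) * n ^ 2 - b * n)) *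
          ψ ((m : ZMod d) * b))]
      refine Finset.sum_congr rfl fun b _ => ?_
      rw [h2, ← sum_zmod d (fun n => ψ (-(a : ZMod d) * n ^ 2 - b * n))]
      congr 2
      refine Finset.sum_congr rfl fun n _ => ?_
      exact h1 n b
    rw [h4]
    calc ψ (-(a : ZMod d) * (m : ZMod d) ^ 2)
        = ∑ n : ZMod d, (d : ℂ)⁻¹ * ψ (-(a : ZMod d) * n ^ 2) *
            (if (m : ZMod d) - n = 0 then (d : ℂ) else 0) := by
          have h5 : ∀ n : ZMod d, (d : ℂ)⁻¹ * ψ (-(a : ZMod d) * n ^ 2) *
              (if (m : ZMod d) - n = 0 then (d : ℂ) else 0) =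
              if n = (m : ZMod d) then ψ (-(a : ZMod d) * n ^ 2) else 0 := by
            intro n
            by_cases hn : n = (m : ZMod d)
            · rw [if_pos hn, if_pos (by rw [hn, sub_self])]
              have : (d : ℂ) ≠ 0 := by exact_mod_cast hd0.ne'
              field_simp
            · rw [if_neg hn, if_neg (fun h => hn (sub_eq_zero.mp h).symm), mul_zero]
          rw [Finset.sum_congr rfl fun n _ => h5 n, Finset.sum_ite_eq' Finset.univ]
          simp
      _ = ∑ n : ZMod d, (d : ℂ)⁻¹ * ψ (-(a : ZMod d) * n ^ 2) *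
            ∑ b : ZMod d, ψ (b * ((m : ZMod d) - n)) := by
          refine Finset.sum_congr rfl fun n _ => ?_
          rw [AddChar.sum_mulShift _ hprim, ZMod.card, Nat.cast_ite, Nat.cast_zero]
      _ = ∑ n : ZMod d, ∑ b : ZMod d, (d : ℂ)⁻¹ * ψ (-(a : ZMod d) * n ^ 2 - b * n) *
            ψ ((m : ZMod d) * b) := by
          refine Finset.sum_congr rfl fun n _ => ?_
          rw [Finset.mul_sum]
          refine Finset.sum_congr rfl fun b _ => ?_
          rw [mul_assoc, mul_assoc, ← AddChar.map_add_eq_mul, ← AddChar.map_add_eq_mul]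
          congr 2
          ring
      _ = _ := by
          rw [Finset.sum_comm]
          refine Finset.sum_congr rfl fun b _ => ?_
          rw [Finset.mul_sum, Finset.sum_mul]

theorem weyl (hg : S_gauss) (hsp : S_space) (hfej : S_fej) : S_weyl := by
  classical
  intro d M a x hd hab hM
  obtain ⟨hadd, hnorm, -, -, hnn, -, -, hdbl, -⟩ := hfej
  have hd0 : 0 < d := hd.pos
  have hdR : (0 : ℝ) < d := by exact_mod_cast hd0
  have hMR : (0 : ℝ) < M := by exact_mod_cast hM
  obtain ⟨c, hc1, hc2⟩ := expand hg d a hd hab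
  have h1 : ∑ i ∈ range M, ∑ j ∈ range M, ee (((i : ℝ) - j) * x - ((i : ℝ) - j) ^ 2 * (a / d)) =
      ∑ b ∈ range d, c b * ((M * fej M (x + b / d) : ℝ) : ℂ) := by
    have h2 : ∀ i j : ℕ, ee (((i : ℝ) - j) * x - ((i : ℝ) - j) ^ 2 * (a / d)) =
        ∑ b ∈ range d, c b * ee (((i : ℝ) - j) * (x + b / d)) := by
      intro i j
      rw [sub_eq_add_neg, hadd]
      have h3 := hc2 ((i : ℤ) - j)
      push_cast at h3
      rw [h3, Finset.mul_sum]
      refine Finset.sum_congr rfl fun b _ => ?_
      rw [mul_add, hadd]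
      ring
    calc _ = ∑ i ∈ range M, ∑ j ∈ range M, ∑ b ∈ range d, c b * ee (((i : ℝ) - j) * (x + b / d)) :=
          Finset.sum_congr rfl fun i _ => Finset.sum_congr rfl fun j _ => h2 i j
      _ = ∑ i ∈ range M, ∑ b ∈ range d, ∑ j ∈ range M, c b * ee (((i : ℝ) - j) * (x + b / d)) :=
          Finset.sum_congr rfl fun i _ => Finset.sum_comm
      _ = ∑ b ∈ range d, ∑ i ∈ range M, ∑ j ∈ range M, c b * ee (((i : ℝ) - j) * (x + b / d)) :=
          Finset.sum_comm
      _ = _ := by
          refine Finset.sum_congr rfl fun b _ => ?_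
          rw [← hdbl M _ hM, Finset.mul_sum]
          refine Finset.sum_congr rfl fun i _ => ?_
          rw [Finset.mul_sum]
  rw [h1]
  have hsq : 0 < Real.sqrt d := Real.sqrt_pos.mpr hdR
  calc ‖∑ b ∈ range d, c b * ((M * fej M (x + b / d) : ℝ) : ℂ)‖
      ≤ ∑ b ∈ range d, 1 / Real.sqrt d * (M * fej M (x + b / d)) := by
        refine (norm_sum_le _ _).trans (Finset.sum_le_sum fun b hb => ?_)
        rw [norm_mul, hc1 b hb, Complex.norm_real, Real.norm_of_nonneg]
        have := hnn M (x + b / d)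
        positivity
    _ = M / Real.sqrt d * ∑ b ∈ range d, fej M (x + b / d) := by
        rw [Finset.mul_sum]
        refine Finset.sum_congr rfl fun b _ => ?_
        ring
    _ ≤ M / Real.sqrt d * (10 * (M + 1 / (1 / d))) := by
        apply mul_le_mul_of_nonneg_left _ (by positivity)
        apply hsp ℕ (range d) (fun b => x + b / d) (1 / d) M (by positivity) hM
        intro b hb b' hb' hne k
        rw [Finset.mem_range] at hb hb'
        have h2 : x + (b : ℝ) / d - (x + b' / d) - k = (((b : ℤ) - b' - k * d : ℤ) : ℝ) / d := by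
          push_cast
          field_simp
          ring
        rw [h2, abs_div, abs_of_pos hdR]
        apply div_le_div_of_nonneg_right _ hdR.le
        have h3 : (b : ℤ) - b' - k * d ≠ 0 := by
          intro h0
          have hbz : (b : ℤ) < d := by exact_mod_cast hb
          have hbz' : (b' : ℤ) < d := by exact_mod_cast hb'
          have h4 : (b : ℤ) - b' = k * d := by linarith
          have hdz : (0 : ℤ) < d := by exact_mod_cast hd0
          have hb0 : (0 : ℤ) ≤ b := Int.natCast_nonneg _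
          have hb0' : (0 : ℤ) ≤ b' := Int.natCast_nonneg _
          have hk : k = 0 := by
            by_contra hk
            rcases lt_or_gt_of_ne hk with h5 | h5
            · have : k * d ≤ -(d : ℤ) := by nlinarith
              linarith
            · have : (d : ℤ) ≤ k * d := by nlinarith
              linarith
          rw [hk, zero_mul] at h4
          apply hne
          have : (b : ℤ) = b' := by linarith
          exact_mod_cast this
        have h5 : (1 : ℤ) ≤ |(b : ℤ) - b' - k * d| := Int.one_le_abs h3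
        exact_mod_cast h5
    _ = 10 * M * (M + d) / Real.sqrt d := by
        rw [one_div_one_div]
        ring

end Pool.Agent.Helper70.AS.gauss
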